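import Pool.Agent.Work.MP_fcea8e_co.Dom.Bound

/-!
One side of the theorem on trees with a vertex of large in- and out-degree: if no copy of the tree has
its root in `Z`, then the poor vertices together with the rich vertices in `Z` can be coloured with
`2Δ - 1` colours.
-/

set_option autoImplicit false

namespace Pool.Agent.Work.MP_fcea8e_co.Dom

open Finset

theorem heavy_root {κ V : Type} [Fintype κ] [Fintype V] (R : RT κ) (E : V → V → Prop)
    (hE : Asym E) {s q J : ℕ} (hq : R.core.card ≤ q) (hJ : ∀ t, R.dep t ≤ J)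
    (hcard : Fintype.card κ ≤ R.outCh.card + 1 + s) {z : V} (hz : z ∉ lev E q (J + 1))
    (hout : R.outCh.card + s ≤ (outs E univ z).card) :
    ∃ f : κ → V, R.Copy E f ∧ f R.v = z := by
  classical
  obtain ⟨P, hP⟩ : ∃ P : κ → V → Prop, ∀ t x, P t x ↔ ((t = R.v → x = z) ∧
      (t ≠ R.v → x ∉ lev E q (J + 1 - R.dep t))) := ⟨_, fun _ _ => Iff.rfl⟩
  obtain ⟨f, hf1, hf2, hf3, hf4⟩ := ext_emb R E {R.v} R.core
    (singleton_subset_iff.2 R.v_mem_core) (mem_singleton_self _)
    (fun t ht htv => absurd (mem_singleton.1 ht) htv)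
    (fun t ht htv => R.core_p ht htv)
    P (fun _ => z)
    (by
      intro a ha b hb _
      rw [mem_coe, mem_singleton] at ha hb
      rw [ha, hb])
    (fun t ht htv => absurd (mem_singleton.1 ht) htv)
    (fun t ht => (hP t z).2 ⟨fun _ => rfl, fun h => absurd (mem_singleton.1 ht) h⟩)
    (by
      intro t _ ht0 x hx
      rw [hP] at hx
      have htv : t ≠ R.v := fun h => ht0 (mem_singleton.2 h)
      have hdp := R.dep_p t htv
      have hdt := hJ t
      have key : q ≤ (outs E univ x \ lev E q (J + 1 - R.dep t)).card ∧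
          q ≤ (ins E univ x \ lev E q (J + 1 - R.dep t)).card := by
        by_cases hpv : R.p t = R.v
        · have hxz : x = z := hx.1 hpv
          rw [hpv, R.dep_v] at hdp
          have e1 : J + 1 - R.dep t = J := by omega
          rw [hxz, e1]
          exact not_mem_lev_succ hz
        · have hxG := hx.2 hpv
          have hdp2 := R.dep_p _ hpv
          have e1 : J + 1 - R.dep (R.p t) = (J + 1 - R.dep t) + 1 := by omega
          rw [e1] at hxG
          exact not_mem_lev_succ hxG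
      by_cases hdir : R.dir t = true
      · refine (hq.trans key.1).trans (card_le_card ?_)
        intro y hy
        rw [mem_sdiff, outs, mem_filter] at hy
        rw [mem_filter, hP]
        refine ⟨mem_univ _, ⟨fun h => absurd h htv, fun _ => hy.2⟩,
          ⟨fun _ => hy.1.2, fun h => ?_⟩⟩
        rw [hdir] at h
        exact Bool.noConfusion h
      · refine (hq.trans key.2).trans (card_le_card ?_)
        intro y hy
        rw [mem_sdiff, ins, mem_filter] at hy
        rw [mem_filter, hP]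
        exact ⟨mem_univ _, ⟨fun h => absurd h htv, fun _ => hy.2⟩,
          ⟨fun h => absurd h hdir, fun _ => hy.1.2⟩⟩)
  have hfv : f R.v = z := hf2 _ (mem_singleton_self _)
  refine (copy_of_core R E f hf1 hf3 ?_).imp (fun _ h => ⟨h.1, h.2.trans hfv⟩)
  rw [hfv]
  have k1 : outs E univ z \ ((R.core.erase R.v).image f) ⊆
      outs E univ z \ (R.core.image f) := by
    intro y hy
    rw [mem_sdiff] at hy ⊢
    refine ⟨hy.1, fun h => hy.2 ?_⟩
    rw [mem_image] at h ⊢
    obtain ⟨t, ht, hty⟩ := h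
    refine ⟨t, mem_erase.2 ⟨fun h => ?_, ht⟩, hty⟩
    rw [h, hfv] at hty
    rw [outs, mem_filter, ← hty] at hy
    exact hE _ _ hy.1.2 hy.1.2
  refine le_trans ?_ (card_le_card k1)
  have k2 := le_card_sdiff ((R.core.erase R.v).image f) (outs E univ z)
  have k3 := card_image_le (s := R.core.erase R.v) (f := f)
  have k4 := card_erase_of_mem R.v_mem_core
  have k5 := R.card_core_add
  have k6 : 0 < R.core.card := card_pos.2 ⟨_, R.v_mem_core⟩
  omega

theorem prop2' {κ V : Type} [Fintype κ] [Fintype V] (R : RT κ) {E : V → V → Prop} (hE : Asym E)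
    {s : ℕ} (hcard : Fintype.card κ ≤ R.outCh.card + 1 + s)
    (hD : 1000 ^ ((s + 4) ^ 2) ≤ R.outCh.card) (C : CritData E R.outCh.card s) :
    ∃ f : κ → V, R.Copy E f ∧ f R.v ∈ C.W := by
  have hD' := (D0_le s).trans hD
  have hcore := R.card_core hcard
  have hK : 0 < 1000 ^ (s + 3) := by positivity
  have h1 : 2 * s * cst s (2 * 1000 ^ (s + 3)) (s + 2) + 3 * s + 3 ≤
      R.outCh.card / 1000 ^ (s + 3) := by
    rw [Nat.le_div_iff_mul_le hK, mul_comm]
    omega
  have h2 : 1000 ^ (s + 3) * (R.outCh.card / 1000 ^ (s + 3)) ≤ R.outCh.card :=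
    Nat.mul_div_le _ _
  have h3 : R.outCh.card < 1000 ^ (s + 3) * (R.outCh.card / 1000 ^ (s + 3)) + 1000 ^ (s + 3) := by
    have := Nat.lt_mul_div_succ R.outCh.card hK
    rw [mul_add, mul_one] at this
    exact this
  have h4 : 1000 ^ (s + 3) ≤ 1000 ^ (s + 3) * (R.outCh.card / 1000 ^ (s + 3)) :=
    Nat.le_mul_of_pos_right _ (by omega)
  refine prop2 R hE hcard (g := R.outCh.card / 1000 ^ (s + 3)) h2 ?_ ?_ ?_ C
  · rw [mul_assoc]
    omega
  · omega
  · omega

theorem side {κ V : Type} [Fintype κ] [Fintype V] (R : RT κ) {E : V → V → Prop} (hE : Asym E)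
    {s : ℕ} (hcard : Fintype.card κ ≤ R.outCh.card + 1 + s)
    (hD : 1000 ^ ((s + 4) ^ 2) ≤ R.outCh.card) (Z : Finset V)
    (hno : ¬ ∃ f : κ → V, R.Copy E f ∧ f R.v ∈ Z) :
    ∃ c : V → ℕ, (∀ x, (x ∈ poor E (2 * s + 1) (s + 1) ∨
        (x ∈ Z ∧ x ∉ lev E (2 * s + 1) (s + 2))) → c x < 2 * R.outCh.card - 1) ∧
      ∀ x y, (x ∈ poor E (2 * s + 1) (s + 1) ∨ (x ∈ Z ∧ x ∉ lev E (2 * s + 1) (s + 2))) →
        (y ∈ poor E (2 * s + 1) (s + 1) ∨ (y ∈ Z ∧ y ∉ lev E (2 * s + 1) (s + 2))) →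
        E x y → c x ≠ c y := by
  classical
  obtain ⟨q, hqdef⟩ : ∃ q, q = 2 * s + 1 := ⟨_, rfl⟩
  rw [← hqdef]
  have hD0 := (D0_le s).trans hD
  have hq1 : 1 ≤ q := by omega
  have hq : R.core.card ≤ q := by
    rw [hqdef]
    exact R.card_core hcard
  have hDs : s + q + 12 * q * (s + 2) + 1 ≤ R.outCh.card := by
    rw [hqdef]
    omega
  have hclt : ∀ x : V, 6 * q * (cls E q (s + 1) x + 1) ≤ 12 * q * (s + 2) := by
    intro x
    have h1 := cls_lt (E := E) (q := q) (s + 1) x
    calc 6 * q * (cls E q (s + 1) x + 1) ≤ 6 * q * (2 * (s + 1 + 1)) :=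
          Nat.mul_le_mul_left _ (by omega)
      _ = 12 * q * (s + 2) := by ring
  have hJ : ∀ t, R.dep t ≤ s + 1 := fun t => R.dep_le hcard t
  by_contra hcon
  obtain ⟨U, hUdef⟩ : ∃ U, U = poor E q (s + 1) := ⟨_, rfl⟩
  rw [← hUdef] at hcon
  obtain ⟨S, hS⟩ : ∃ S : Finset V, ∀ x, x ∈ S ↔ (x ∈ U ∨ (x ∈ Z ∧ x ∉ lev E q (s + 2))) :=
    ⟨univ.filter (fun x => x ∈ U ∨ (x ∈ Z ∧ x ∉ lev E q (s + 2))), fun x => by simp⟩
  obtain ⟨L, hLdef⟩ : ∃ L : V → Finset ℕ, L = fun x => if x ∈ U then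
      Ico (6 * q * cls E q (s + 1) x) (6 * q * (cls E q (s + 1) x + 1))
      else range (2 * R.outCh.card - 1) := ⟨_, rfl⟩
  obtain ⟨H, hHdef⟩ : ∃ H : V → V → Prop, H = fun x y => (E x y ∨ E y x) ∧
      (x ∈ U → y ∈ U → cls E q (s + 1) x = cls E q (s + 1) y) := ⟨_, rfl⟩
  have hLU : ∀ x, x ∈ U → L x =
      Ico (6 * q * cls E q (s + 1) x) (6 * q * (cls E q (s + 1) x + 1)) := by
    intro x hx
    rw [hLdef]
    simp only [hx, if_true]
  have hLN : ∀ x, x ∉ U → L x = range (2 * R.outCh.card - 1) := by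
    intro x hx
    rw [hLdef]
    simp only [hx, if_false]
  have hHiff : ∀ x y, H x y ↔ (E x y ∨ E y x) ∧
      (x ∈ U → y ∈ U → cls E q (s + 1) x = cls E q (s + 1) y) := by
    intro x y
    rw [hHdef]
  have hs : ∀ x y, H x y → H y x := by
    intro x y h
    rw [hHiff] at h ⊢
    exact ⟨h.1.symm, fun h1 h2 => (h.2 h2 h1).symm⟩
  have hi : ∀ x, ¬ H x x := by
    intro x h
    rw [hHiff] at h
    rcases h.1 with h | h <;> exact hE _ _ h h
  have hnc : ¬ Col H L S := by
    rintro ⟨c, hc1, hc2⟩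
    refine hcon ⟨c, ?_, ?_⟩
    · intro x hx
      have h1 := hc1 x ((hS x).2 hx)
      by_cases hxU : x ∈ U
      · rw [hLU x hxU, mem_Ico] at h1
        have h2 := hclt x
        omega
      · rw [hLN x hxU, mem_range] at h1
        exact h1
    · intro x y hx hy hxy
      have hx1 := hc1 x ((hS x).2 hx)
      have hy1 := hc1 y ((hS y).2 hy)
      by_cases h : H x y
      · exact hc2 x ((hS x).2 hx) y ((hS y).2 hy) h
      · rw [hHiff] at h
        push Not at h
        obtain ⟨hxU, hyU, hne⟩ := h (Or.inl hxy)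
        rw [hLU x hxU, mem_Ico] at hx1
        rw [hLU y hyU, mem_Ico] at hy1
        intro he
        rw [he] at hx1
        rcases Nat.lt_or_gt_of_ne hne with h1 | h1
        · have h2 : 6 * q * (cls E q (s + 1) x + 1) ≤ 6 * q * cls E q (s + 1) y :=
            Nat.mul_le_mul_left _ h1
          omega
        · have h2 : 6 * q * (cls E q (s + 1) y + 1) ≤ 6 * q * cls E q (s + 1) x :=
            Nat.mul_le_mul_left _ h1
          omega
  obtain ⟨X, hXS, hX⟩ := exists_crit hnc
  have hXW : X = (X \ U) ∪ (X ∩ U) := (sdiff_union_inter X U).symm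
  have hdis : Disjoint (X \ U) (X ∩ U) := by
    rw [Finset.disjoint_left]
    intro x h1 h2
    exact (mem_sdiff.1 h1).2 (mem_inter.1 h2).2
  have hWX : X \ U ⊆ X := sdiff_subset
  have hWZ : ∀ z ∈ X \ U, z ∈ Z ∧ z ∉ lev E q (s + 2) := by
    intro z hz
    obtain ⟨h1, h2⟩ := mem_sdiff.1 hz
    rcases (hS z).1 (hXS h1) with h3 | h3
    · exact absurd h3 h2
    · exact h3
  have h1 : ∀ z ∈ X \ U, (outs E univ z).card < R.outCh.card + s := by
    intro z hz
    by_contra hlt
    obtain ⟨f, hf, hfz⟩ := heavy_root R E hE hq hJ hcard (hWZ z hz).2 (not_lt.1 hlt)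
    exact hno ⟨f, hf, hfz ▸ (hWZ z hz).1⟩
  have hHW : ∀ x ∈ X \ U, ∀ y ∈ X, (H x y ↔ E x y ∨ E y x) := by
    intro x hx y _
    rw [hHiff]
    exact ⟨fun h => h.1, fun h => ⟨h, fun h' => absurd h' (mem_sdiff.1 hx).2⟩⟩
  have hlev : ∀ z ∈ X \ U, z ∉ lev E q (s + 1) :=
    fun z hz h => (hWZ z hz).2 (lev_mono (Nat.le_succ _) h)
  have h2 : ∀ z ∈ X \ U, 2 * R.outCh.card ≤ (outs E X z).card + (ins E X z).card + 1 := by
    intro z hz
    have k1 := crit_deg hs hi hX (hWX hz)
    rw [hLN z (mem_sdiff.1 hz).2, card_range] at k1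
    have k3 : X.filter (fun y => H z y) ⊆ outs E X z ∪ ins E X z := by
      intro y hy
      rw [mem_filter] at hy
      rw [mem_union, outs, ins, mem_filter, mem_filter]
      rcases ((hHW z hz y hy.1).1 hy.2) with h | h
      · exact Or.inl ⟨hy.1, h⟩
      · exact Or.inr ⟨hy.1, h⟩
    have k4 := (card_le_card k3).trans (card_union_le _ _)
    omega
  have h3 : ∀ u ∈ X ∩ U, (outs E (X \ U) u).card ≤ q := by
    intro u hu
    have k1 := (mem_inter.1 hu).2
    rw [hUdef, mem_poor] at k1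
    have k2 : outs E (X \ U) u ⊆ outs E univ u \ lev E q (s + 1) := by
      intro y hy
      rw [outs, mem_filter] at hy
      rw [mem_sdiff, outs, mem_filter]
      exact ⟨⟨mem_univ _, hy.2⟩, hlev y hy.1⟩
    exact (card_le_card k2).trans k1.le
  have h4 : ∑ u ∈ X ∩ U, ((X ∩ U).filter
      (fun y => E u y ∧ cls E q (s + 1) u = cls E q (s + 1) y)).card ≤ q * (X ∩ U).card := by
    refine same_class ?_
    rw [← hUdef]
    exact inter_subset_right
  have h5 : ∀ u ∈ X ∩ U, 6 * q ≤ (outs E (X \ U) u).card + (ins E (X \ U) u).card +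
      ((X ∩ U).filter (fun y => E u y ∧ cls E q (s + 1) u = cls E q (s + 1) y)).card +
      ((X ∩ U).filter (fun y => E y u ∧ cls E q (s + 1) u = cls E q (s + 1) y)).card := by
    intro u hu
    obtain ⟨huX, huU⟩ := mem_inter.1 hu
    have k1 := crit_deg hs hi hX huX
    rw [hLU u huU, Nat.card_Ico] at k1
    have k2 : 6 * q * (cls E q (s + 1) u + 1) - 6 * q * cls E q (s + 1) u = 6 * q := by
      rw [Nat.mul_add, Nat.add_sub_cancel_left, mul_one]
    rw [k2] at k1
    have k3 : X.filter (fun y => H u y) ⊆ outs E (X \ U) u ∪ ins E (X \ U) u ∪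
        (X ∩ U).filter (fun y => E u y ∧ cls E q (s + 1) u = cls E q (s + 1) y) ∪
        (X ∩ U).filter (fun y => E y u ∧ cls E q (s + 1) u = cls E q (s + 1) y) := by
      intro y hy
      rw [mem_filter] at hy
      obtain ⟨hyX, hy2⟩ := hy
      rw [hHiff] at hy2
      rw [mem_union, mem_union, mem_union, outs, ins, mem_filter, mem_filter, mem_filter,
        mem_filter, mem_sdiff, mem_inter]
      by_cases hyU : y ∈ U
      · have hc := hy2.2 huU hyU
        rcases hy2.1 with h | h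
        · exact Or.inl (Or.inr ⟨⟨hyX, hyU⟩, h, hc⟩)
        · exact Or.inr ⟨⟨hyX, hyU⟩, h, hc⟩
      · rcases hy2.1 with h | h
        · exact Or.inl (Or.inl (Or.inl ⟨⟨hyX, hyU⟩, h⟩))
        · exact Or.inl (Or.inl (Or.inr ⟨⟨hyX, hyU⟩, h⟩))
    have k4 := card_le_card k3
    have k5 := card_union_le (outs E (X \ U) u ∪ ins E (X \ U) u ∪
        (X ∩ U).filter (fun y => E u y ∧ cls E q (s + 1) u = cls E q (s + 1) y))
      ((X ∩ U).filter (fun y => E y u ∧ cls E q (s + 1) u = cls E q (s + 1) y))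
    have k6 := card_union_le (outs E (X \ U) u ∪ ins E (X \ U) u)
        ((X ∩ U).filter (fun y => E u y ∧ cls E q (s + 1) u = cls E q (s + 1) y))
    have k7 := card_union_le (outs E (X \ U) u) (ins E (X \ U) u)
    omega
  obtain ⟨c3, c4, c5, c6, c7⟩ := count_main (E := E) hXW hdis (D := R.outCh.card) (s := s) (q := q)
    (by omega) hq1 (cls E q (s + 1)) h1 h2 h3 h4 h5
  have hW : 0 < (X \ U).card := by
    rw [Nat.pos_iff_ne_zero]
    intro h0
    have h00 := c7 h0
    have hne := crit_nonempty hX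
    rw [hXW] at hne
    rw [card_eq_zero] at h0 h00
    rw [h0, h00, union_empty] at hne
    exact not_nonempty_empty hne
  obtain ⟨f, hf, hfW⟩ := prop2' R hE hcard hD
    { H := H, L := L, X := X, Y := X ∩ U, W := X \ U, hs := hs, hi := hi, crit := hX,
      hWX := hWX, hH := hHW, hL := fun x hx => hLN x (mem_sdiff.1 hx).2, hXW := hXW,
      hdis := hdis, hW := hW, h1 := h1, h2 := h2, c3 := c3, c4 := c4, c5 := c5, c6 := c6 }
  exact hno ⟨f, hf, (hWZ _ hfW).1⟩

end Pool.Agent.Work.MP_fcea8e_co.Dom
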