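import Pool.Agent.Work.MP_fcea8e_co.Dom.Facts
import Pool.Agent.Work.MP_fcea8e_co.Dom.NumDefs

/-!
The reversed tree, and the tree without the in-leaves of the root.
-/

set_option autoImplicit false

namespace Pool.Agent.Work.MP_fcea8e_co.Dom

open Finset

namespace RT

variable {κ : Type} (R : RT κ)

/-- all arcs reversed -/
def flip : RT κ := ⟨R.v, R.p, fun t => !R.dir t, R.dep, R.dep_v, R.dep_p⟩

theorem flip_flip : R.flip.flip = R := by
  cases R
  simp [flip]

theorem copy_flip {V : Type} {E : V → V → Prop} {f : κ → V} :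
    R.flip.Copy (fun a b => E b a) f ↔ R.Copy E f := by
  constructor
  · rintro ⟨h1, h2⟩
    refine ⟨h1, fun t ht => ⟨fun hd => ?_, fun hd => ?_⟩⟩
    · exact (h2 t ht).2 (by simp [flip, hd])
    · exact (h2 t ht).1 (by simp [flip, hd])
  · rintro ⟨h1, h2⟩
    refine ⟨h1, fun t ht => ⟨fun hd => ?_, fun hd => ?_⟩⟩
    · exact (h2 t ht).2 (by simpa [flip] using hd)
    · exact (h2 t ht).1 (by simpa [flip] using hd)

variable [Fintype κ]

theorem mem_flip_leaves (t : κ) : t ∈ R.flip.leaves ↔ t ≠ R.v ∧ R.p t = R.v ∧ R.dir t = false ∧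
    ∀ t', t' ≠ R.v → R.p t' ≠ t := by
  classical
  rw [leaves, mem_filter]
  simp [flip]

theorem mem_flip_outCh (t : κ) : t ∈ R.flip.outCh ↔ t ≠ R.v ∧ R.p t = R.v ∧ R.dir t = false := by
  classical
  rw [outCh, mem_filter]
  simp [flip]

theorem mem_outCh (t : κ) : t ∈ R.outCh ↔ t ≠ R.v ∧ R.p t = R.v ∧ R.dir t = true := by
  classical
  rw [outCh, mem_filter]
  simp

theorem v_notMem : R.v ∉ R.flip.leaves := fun h => ((R.mem_flip_leaves _).1 h).1 rfl

theorem p_notMem {t : κ} (ht : t ≠ R.v) : R.p t ∉ R.flip.leaves :=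
  fun h => ((R.mem_flip_leaves _).1 h).2.2.2 t ht rfl

/-- the vertices which are not in-leaves of the root -/
def Sub : Type := {t : κ // t ∉ R.flip.leaves}

noncomputable instance : Fintype R.Sub := by
  classical
  exact inferInstanceAs (Fintype {t : κ // t ∉ R.flip.leaves})

open Classical in
/-- the tree without the in-leaves of the root -/
noncomputable def del : RT R.Sub where
  v := ⟨R.v, R.v_notMem⟩
  p t := if h : t.1 = R.v then ⟨R.v, R.v_notMem⟩ else ⟨R.p t.1, R.p_notMem h⟩
  dir t := R.dir t.1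
  dep t := R.dep t.1
  dep_v := R.dep_v
  dep_p := by
    rintro ⟨t, ht⟩ hne
    have h : t ≠ R.v := fun h => hne (Subtype.ext h)
    simp only [h, dite_false]
    exact R.dep_p t h

theorem del_p {t : κ} (ht : t ∉ R.flip.leaves) (hv : t ≠ R.v) :
    R.del.p ⟨t, ht⟩ = ⟨R.p t, R.p_notMem hv⟩ := by
  simp [del, hv]

theorem del_outCh_card : R.del.outCh.card = R.outCh.card := by
  classical
  have hinj : Function.Injective (fun t : R.Sub => t.1) := Subtype.val_injective
  rw [← card_image_of_injective R.del.outCh hinj]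
  congr 1
  ext t
  rw [mem_image]
  constructor
  · rintro ⟨⟨t', ht'⟩, h1, rfl⟩
    obtain ⟨h2, h3, h4⟩ := (R.del.mem_outCh _).1 h1
    have hne : t' ≠ R.v := fun h => h2 (Subtype.ext h)
    rw [R.del_p ht' hne] at h3
    exact (R.mem_outCh _).2 ⟨hne, congrArg Subtype.val h3, h4⟩
  · intro h
    obtain ⟨h1, h2, h3⟩ := (R.mem_outCh _).1 h
    have hnl : t ∉ R.flip.leaves := by
      intro h4
      have h5 := ((R.mem_flip_leaves _).1 h4).2.2.1
      rw [h3] at h5
      exact Bool.noConfusion h5
    refine ⟨⟨t, hnl⟩, (R.del.mem_outCh _).2 ⟨fun h4 => h1 (congrArg Subtype.val h4), ?_, h3⟩, rfl⟩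
    rw [R.del_p hnl h1]
    exact Subtype.ext h2

theorem card_del : Fintype.card R.Sub + R.flip.leaves.card = Fintype.card κ := by
  classical
  rw [← R.flip.card_core_add, core]
  congr 1
  have h : Fintype.card R.Sub = Fintype.card {t : κ // t ∉ R.flip.leaves} :=
    Fintype.card_congr (Equiv.refl _)
  rw [h, Fintype.card_subtype]

open Classical in
/-- the vertices not adjacent to the root -/
noncomputable def rest2 : Finset κ := univ.filter (fun t => t ≠ R.v ∧ R.p t ≠ R.v)

theorem card_rest2 : R.outCh.card + R.flip.outCh.card + 1 + R.rest2.card = Fintype.card κ := by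
  classical
  have h1 : (univ : Finset κ) = insert R.v ((R.outCh ∪ R.flip.outCh) ∪ R.rest2) := by
    ext t
    simp only [mem_univ, mem_insert, mem_union, R.mem_outCh, R.mem_flip_outCh, rest2, mem_filter,
      true_and, true_iff]
    by_cases h1 : t = R.v
    · exact Or.inl h1
    · by_cases h2 : R.p t = R.v
      · cases h3 : R.dir t with
        | true => exact Or.inr (Or.inl (Or.inl ⟨h1, h2, rfl⟩))
        | false => exact Or.inr (Or.inl (Or.inr ⟨h1, h2, rfl⟩))
      · exact Or.inr (Or.inr ⟨h1, h2⟩)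
  have h2 : R.v ∉ (R.outCh ∪ R.flip.outCh) ∪ R.rest2 := by
    simp only [mem_union, R.mem_outCh, R.mem_flip_outCh, rest2, mem_filter]
    rintro ((h | h) | h)
    · exact h.1 rfl
    · exact h.1 rfl
    · exact h.2.1 rfl
  have h3 : Disjoint (R.outCh ∪ R.flip.outCh) R.rest2 := by
    rw [Finset.disjoint_left]
    intro t h4 h5
    simp only [mem_union, R.mem_outCh, R.mem_flip_outCh] at h4
    rw [rest2, mem_filter] at h5
    rcases h4 with h4 | h4
    · exact h5.2.2 h4.2.1
    · exact h5.2.2 h4.2.1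
  have h4 : Disjoint R.outCh R.flip.outCh := by
    rw [Finset.disjoint_left]
    intro t h4 h5
    have h6 := ((R.mem_outCh _).1 h4).2.2
    rw [((R.mem_flip_outCh _).1 h5).2.2] at h6
    exact Bool.noConfusion h6
  have h5 : Fintype.card κ = ((R.outCh ∪ R.flip.outCh) ∪ R.rest2).card + 1 := by
    rw [← card_univ]
    conv_lhs => rw [h1]
    rw [card_insert_of_notMem h2]
  rw [h5, card_union_of_disjoint h3, card_union_of_disjoint h4]
  omega

open Classical in
theorem card_inch_core : (R.flip.core.filter (fun t => t ∈ R.flip.outCh)).card ≤ R.rest2.card := by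
  classical
  have h1 : R.flip.core.filter (fun t => t ∈ R.flip.outCh) ⊆ R.rest2.image R.p := by
    intro t ht
    obtain ⟨h1, h2⟩ := mem_filter.1 ht
    rw [core, mem_filter, mem_flip_leaves] at h1
    obtain ⟨h3, h4, h5⟩ := (R.mem_flip_outCh _).1 h2
    have h6 : ∃ t', t' ≠ R.v ∧ R.p t' = t := by
      by_contra hno
      push Not at hno
      exact h1.2 ⟨h3, h4, h5, hno⟩
    obtain ⟨t', h7, h8⟩ := h6
    refine mem_image.2 ⟨t', ?_, h8⟩
    rw [rest2, mem_filter]
    exact ⟨mem_univ _, h7, fun h => h3 (h8.symm.trans h)⟩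
  exact (card_le_card h1).trans card_image_le

theorem del_card_le {s : ℕ} (h : Fintype.card κ ≤ R.outCh.card + R.flip.outCh.card + 1 + s) :
    Fintype.card R.Sub ≤ R.del.outCh.card + 1 + 2 * s := by
  classical
  have h1 := R.card_rest2
  have h2 := R.card_inch_core
  have h3 := R.flip.card_outCh
  have h4 := R.card_del
  rw [R.del_outCh_card]
  omega

/-- adding the in-leaves -/
theorem copy_of_del {V : Type} [Fintype V] {E : V → V → Prop} (hE : Asym E)
    {f : R.Sub → V} (hf : R.del.Copy E f)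
    (hc : R.flip.leaves.card + R.del.core.card ≤ (ins E univ (f R.del.v)).card) :
    ∃ g : κ → V, R.Copy E g := by
  classical
  obtain ⟨z, hz⟩ : ∃ z, z = f R.del.v := ⟨_, rfl⟩
  rw [← hz] at hc
  have hfree : R.flip.leaves.card ≤ (ins E univ z \ univ.image f).card := by
    have h1 : ins E univ z \ R.del.core.image f ⊆ ins E univ z \ univ.image f := by
      intro y hy
      rw [mem_sdiff] at hy ⊢
      refine ⟨hy.1, fun h => hy.2 ?_⟩
      obtain ⟨t, _, ht⟩ := mem_image.1 h
      refine mem_image.2 ⟨t, ?_, ht⟩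
      rw [core, mem_filter]
      refine ⟨mem_univ _, fun h2 => ?_⟩
      rw [leaves, mem_filter] at h2
      have h3 := (hf.2 t h2.2.1).1 h2.2.2.2.1
      rw [h2.2.2.1, ← hz, ht] at h3
      rw [ins, mem_filter] at hy
      exact hE _ _ h3 hy.1.2
    refine le_trans ?_ (card_le_card h1)
    have h2 := le_card_sdiff (R.del.core.image f) (ins E univ z)
    have h3 := card_image_le (s := R.del.core) (f := f)
    omega
  have hcard : Fintype.card R.flip.leaves ≤ Fintype.card ((ins E univ z \ univ.image f) :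
      Finset V) := by
    rw [Fintype.card_coe, Fintype.card_coe]
    exact hfree
  obtain ⟨e⟩ := Function.Embedding.nonempty_of_card_le hcard
  obtain ⟨g, hg⟩ : ∃ g : κ → V, g = fun t => if h : t ∈ R.flip.leaves then (e ⟨t, h⟩ : V)
    else f ⟨t, h⟩ := ⟨_, rfl⟩
  have hgl : ∀ t (h : t ∈ R.flip.leaves), g t = e ⟨t, h⟩ := by
    intro t h
    rw [hg]
    simp only [h, dite_true]
  have hgc : ∀ t (h : t ∉ R.flip.leaves), g t = f ⟨t, h⟩ := by
    intro t h
    rw [hg]
    simp only [h, dite_false]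
  have hmem : ∀ t (h : t ∈ R.flip.leaves), E (g t) z ∧ ∀ t', f t' ≠ g t := by
    intro t h
    have k1 := (e ⟨t, h⟩).2
    rw [← hgl t h, mem_sdiff, ins, mem_filter] at k1
    exact ⟨k1.1.2, fun t' h' => k1.2 (mem_image.2 ⟨t', mem_univ _, h'⟩)⟩
  have hgv : g R.v = z := by
    rw [hgc R.v R.v_notMem, hz]
    rfl
  refine ⟨g, ?_, ?_⟩
  · intro a b hab
    by_cases ha : a ∈ R.flip.leaves
    · by_cases hb : b ∈ R.flip.leaves
      · rw [hgl a ha, hgl b hb] at hab
        have k1 := e.injective (Subtype.ext hab)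
        exact congrArg Subtype.val k1
      · rw [hgc b hb] at hab
        exact absurd hab.symm ((hmem a ha).2 _)
    · by_cases hb : b ∈ R.flip.leaves
      · rw [hgc a ha] at hab
        exact absurd hab ((hmem b hb).2 _)
      · rw [hgc a ha, hgc b hb] at hab
        exact congrArg Subtype.val (hf.1 hab)
  · intro t htv
    by_cases ht : t ∈ R.flip.leaves
    · have k1 := (hmem t ht).1
      rw [mem_flip_leaves] at ht
      rw [ht.2.1, hgv]
      refine ⟨fun h => ?_, fun _ => k1⟩
      rw [ht.2.2.1] at h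
      exact Bool.noConfusion h
    · have k1 := hf.2 ⟨t, ht⟩ (fun h => htv (congrArg Subtype.val h))
      rw [R.del_p ht htv] at k1
      rw [hgc t ht, hgc _ (R.p_notMem htv)]
      exact ⟨k1.1, k1.2⟩

end RT

end Pool.Agent.Work.MP_fcea8e_co.Dom
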