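import Pool.Agent.Work.MP_fcea8e_co.Mixed.Side
import Pool.Agent.Work.MP_fcea8e_co.Mixed.Sub
import Pool.Agent.Work.MP_fcea8e_co.Broom.Crit
import Pool.Agent.Work.MP_fcea8e_co.Dom.Stack
import Pool.Agent.Work.MP_fcea8e_co.Dom.Tree
import Pool.Agent.Work.MP_fcea8e_co.Dom.Desc
import Pool.Agent.Work.MP_fcea8e_co.Dom.Assemble

/-!
Oriented trees with a vertex of large in- and out-degree which is adjacent to all but `s` vertices.
-/

set_option autoImplicit false

namespace Pool.Agent.Work.MP_fcea8e_co.Dom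

open Finset

theorem lev_rev {V : Type} [Fintype V] (E : V → V → Prop) (q h : ℕ) :
    lev (fun a b => E b a) q h = lev E q h := by
  classical
  induction h with
  | zero => rfl
  | succ h ih =>
    ext u
    rw [lev, lev, mem_filter, mem_filter, ih]
    exact and_congr_right (fun _ => or_comm)

/-- the vertices of one side -/
def OneSide {V : Type} [Fintype V] (E : V → V → Prop) (s δ : ℕ) (x : V) : Prop :=
  x ∈ poor E (2 * (2 * s) + 1) (2 * s + 1) ∨
    (δ + (2 * (2 * s) + 1) ≤ (ins E univ x).card ∧ x ∉ lev E (2 * (2 * s) + 1) (2 * s + 2))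

theorem half {κ V : Type} [Fintype κ] [Fintype V] (R : RT κ) {E : V → V → Prop} (hE : Asym E)
    {s : ℕ} (hcard : Fintype.card κ ≤ R.outCh.card + R.flip.outCh.card + 1 + s)
    (hΔ : 1000 ^ ((2 * s + 4) ^ 2) ≤ R.outCh.card) (hno : ¬ ∃ f : κ → V, R.Copy E f) :
    ∃ c : V → ℕ, (∀ x, OneSide E s R.flip.outCh.card x → c x < 2 * R.outCh.card - 1) ∧
      ∀ x y, OneSide E s R.flip.outCh.card x → OneSide E s R.flip.outCh.card y →
        E x y → c x ≠ c y := by
  classical
  have hdc := R.del_card_le hcard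
  have hdo := R.del_outCh_card
  have hcore := R.del.card_core hdc
  obtain ⟨Z, hZ⟩ : ∃ Z : Finset V, ∀ x, x ∈ Z ↔
      R.flip.outCh.card + (2 * (2 * s) + 1) ≤ (ins E univ x).card :=
    ⟨univ.filter (fun x => R.flip.outCh.card + (2 * (2 * s) + 1) ≤ (ins E univ x).card),
      fun x => by simp⟩
  have hno' : ¬ ∃ f : R.Sub → V, R.del.Copy E f ∧ f R.del.v ∈ Z := by
    rintro ⟨f, hf, hfZ⟩
    refine hno (R.copy_of_del hE hf ?_)
    have h1 := (hZ _).1 hfZ
    have h2 := R.flip.card_outCh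
    omega
  obtain ⟨c, hc1, hc2⟩ := side R.del hE hdc (by rw [hdo]; exact hΔ) Z hno'
  rw [hdo] at hc1
  refine ⟨c, fun x hx => hc1 x ?_, fun x y hx hy hxy => hc2 x y ?_ ?_ hxy⟩
  · rcases hx with h | ⟨h1, h2⟩
    · exact Or.inl h
    · exact Or.inr ⟨(hZ _).2 h1, h2⟩
  · rcases hx with h | ⟨h1, h2⟩
    · exact Or.inl h
    · exact Or.inr ⟨(hZ _).2 h1, h2⟩
  · rcases hy with h | ⟨h1, h2⟩
    · exact Or.inl h
    · exact Or.inr ⟨(hZ _).2 h1, h2⟩

theorem mixed_kc {κ V : Type} [Fintype κ] [Fintype V] (R : RT κ) {E : V → V → Prop}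
    (hE : Asym E) {s : ℕ}
    (hcard : Fintype.card κ ≤ R.outCh.card + R.flip.outCh.card + 1 + s)
    (hΔ : 1000 ^ ((2 * s + 4) ^ 2) ≤ R.outCh.card)
    (hδ : 1000 ^ ((2 * s + 4) ^ 2) ≤ R.flip.outCh.card) (hno : ¬ ∃ f : κ → V, R.Copy E f)
    (hdeg : ∀ x, 2 * R.outCh.card + 2 * R.flip.outCh.card - 2 ≤
      (outs E univ x).card + (ins E univ x).card) :
    KC E (2 * R.outCh.card + 2 * R.flip.outCh.card - 2) := by
  classical
  have hD0 := (D0_le (2 * s)).trans hΔ
  have hD0' := (D0_le (2 * s)).trans hδ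
  obtain ⟨c1, h11, h12⟩ := half R hE hcard hΔ hno
  have hff : R.flip.flip.outCh.card = R.outCh.card := by rw [R.flip_flip]
  have hno2 : ¬ ∃ f : κ → V, R.flip.Copy (fun a b => E b a) f := by
    rintro ⟨f, hf⟩
    exact hno ⟨f, R.copy_flip.1 hf⟩
  obtain ⟨c2, h21, h22⟩ := half R.flip (E := fun a b => E b a) (fun a b h1 h2 => hE _ _ h1 h2)
    (s := s) (by rw [hff]; omega) hδ hno2
  rw [hff] at h21 h22
  have hcov : ∀ x, ¬ OneSide E s R.flip.outCh.card x →
      OneSide (fun a b => E b a) s R.outCh.card x := by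
    intro x hx
    rw [OneSide, not_or, not_and_or, not_not] at hx
    obtain ⟨hx1, hx2⟩ := hx
    rw [mem_poor] at hx1
    rw [OneSide, mem_poor, lev_rev E _ (2 * s + 1), lev_rev E _ (2 * s + 2)]
    by_cases hl : x ∈ lev E (2 * (2 * s) + 1) (2 * s + 2)
    · left
      rw [lev, mem_filter] at hl
      rcases hl.2 with h | h
      · exact absurd h hx1
      · exact h
    · right
      refine ⟨?_, hl⟩
      rcases hx2 with h | h
      · have h3 := hdeg x
        have h4 : (ins (fun a b => E b a) univ x).card = (outs E univ x).card := rfl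
        rw [h4]
        omega
      · exact absurd h hl
  refine ⟨fun x => if OneSide E s R.flip.outCh.card x then c1 x else
    (2 * R.outCh.card - 1) + c2 x, fun x => ?_, fun x y hxy => ?_⟩
  · by_cases hx : OneSide E s R.flip.outCh.card x
    · simp only [hx, if_true]
      have := h11 x hx
      omega
    · simp only [hx, if_false]
      have := h21 x (hcov x hx)
      omega
  · by_cases hx : OneSide E s R.flip.outCh.card x
    · by_cases hy : OneSide E s R.flip.outCh.card y
      · simp only [hx, hy, if_true]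
        exact h12 x y hx hy hxy
      · simp only [hx, hy, if_true, if_false]
        have := h11 x hx
        omega
    · by_cases hy : OneSide E s R.flip.outCh.card y
      · simp only [hx, hy, if_true, if_false]
        have := h11 y hy
        omega
      · simp only [hx, hy, if_false]
        have := h22 y x (hcov y hy) (hcov x hx) hxy
        omega

theorem copy_in {κ V : Type} [Fintype κ] [Fintype V] (R : RT κ) {E : V → V → Prop} {f : κ → V}
    (h : R.Copy E f) : R.flip.outCh.card ≤ (ins E univ (f R.v)).card :=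
  copy_out R.flip (R.copy_flip.2 h)

theorem mixed_num {κ : Type} [Fintype κ] (R : RT κ) {s : ℕ}
    (hcard : Fintype.card κ ≤ R.outCh.card + R.flip.outCh.card + 1 + s)
    (hΔ : 1000 ^ ((2 * s + 4) ^ 2) ≤ R.outCh.card)
    (hδ : 1000 ^ ((2 * s + 4) ^ 2) ≤ R.flip.outCh.card) :
    sInf (tSet R.pC) = 2 * (R.outCh.card + R.flip.outCh.card) - 1 ∧
    sInf (cSet R.pC) = 2 * (R.outCh.card + R.flip.outCh.card) - 1 := by
  classical
  have hp1 : 1 ≤ R.outCh.card := (Nat.one_le_pow _ _ (by norm_num)).trans hΔ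
  have hp2 : 1 ≤ R.flip.outCh.card := (Nat.one_le_pow _ _ (by norm_num)).trans hδ
  apply num_eq
  · intro m E hE hK
    by_contra hno
    obtain ⟨X, h1, h2⟩ := Broom.exists_critical hE
      (hK (2 * R.outCh.card + 2 * R.flip.outCh.card - 2) (by omega))
    refine h1 (mixed_kc R (fun _ _ h3 h4 => hE _ _ h3 h4) hcard hΔ hδ ?_ h2)
    rintro ⟨f, hf⟩
    exact hno ⟨_, copy_pull R (e := fun x : {x // x ∈ X} => (x : Fin m))
      Subtype.val_injective hf⟩
  · intro n hn
    by_contra hlt
    rw [not_le] at hlt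
    obtain ⟨E1, hA1, hT1, _, hi1⟩ := reg_tour R.flip.outCh.card hp2
    obtain ⟨E2, hA2, hT2, ho2, _⟩ := reg_tour R.outCh.card hp1
    obtain ⟨e⟩ : Nonempty (Fin n ↪ Fin (2 * R.flip.outCh.card - 1) ⊕
        Fin (2 * R.outCh.card - 1)) := Function.Embedding.nonempty_of_card_le (by
      rw [Fintype.card_fin, Fintype.card_sum, Fintype.card_fin, Fintype.card_fin]
      omega)
    obtain ⟨f, hf⟩ := hn (fun a b => stk E1 E2 (e a) (e b)) (asym_pull e (stk_asym hA1 hA2))
      (tour_pull e.injective (stk_tour hT1 hT2))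
    have hf' := copy_pull R e.injective hf
    rcases h1 : e (f R.v) with z | z
    · have h2 := copy_in R hf'
      rw [h1] at h2
      have h3 : ins (stk E1 E2) univ (Sum.inl z) ⊆ (ins E1 univ z).image Sum.inl := by
        intro y hy
        rw [ins, mem_filter] at hy
        rcases y with y | y
        · refine mem_image.2 ⟨y, ?_, rfl⟩
          rw [ins, mem_filter]
          exact ⟨mem_univ _, hy.2⟩
        · exact hy.2.elim
      have h4 := (card_le_card h3).trans card_image_le
      exact absurd (hi1 z) (not_lt.2 (h2.trans h4))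
    · have h2 := copy_out R hf'
      rw [h1] at h2
      have h3 : outs (stk E1 E2) univ (Sum.inr z) ⊆ (outs E2 univ z).image Sum.inr := by
        intro y hy
        rw [outs, mem_filter] at hy
        rcases y with y | y
        · exact hy.2.elim
        · refine mem_image.2 ⟨y, ?_, rfl⟩
          rw [outs, mem_filter]
          exact ⟨mem_univ _, hy.2⟩
      have h4 := (card_le_card h3).trans card_image_le
      exact absurd (ho2 z) (not_lt.2 (h2.trans h4))

theorem inCh_card {κ : Type} [Fintype κ] {R : RT κ} {T : Digraph κ} {v : κ}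
    (h : Describes R T v) : R.flip.outCh.card = inDeg T v := by
  obtain ⟨hv, hadj⟩ := h
  symm
  refine Nat.subtype_card _ (fun x => ?_)
  rw [R.mem_flip_outCh, hadj]
  constructor
  · rintro ⟨h1, h2, h3⟩
    exact Or.inl ⟨hv ▸ h1, hv ▸ h2, h3⟩
  · rintro (⟨h1, h2, h3⟩ | ⟨h1, _⟩)
    · exact ⟨hv ▸ h1, hv ▸ h2, h3⟩
    · exact absurd rfl h1

theorem mixed_tree {κ : Type} [Fintype κ] {T : Digraph κ} {v : κ} {s : ℕ} (ho : Oriented T)
    (ht : (SimpleGraph.fromRel T.Adj).IsTree)
    (hΔ : 1000 ^ ((2 * s + 4) ^ 2) ≤ outDeg T v) (hδ : 1000 ^ ((2 * s + 4) ^ 2) ≤ inDeg T v)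
    (hs : Fintype.card κ ≤ outDeg T v + inDeg T v + 1 + s) :
    tNum T = 2 * (outDeg T v + inDeg T v) - 1 ∧ cNum T = 2 * (outDeg T v + inDeg T v) - 1 := by
  obtain ⟨R, hR⟩ := exists_rt T ho ht v
  have h1 : R.outCh.card = outDeg T v := outCh_card hR
  have h2 : R.flip.outCh.card = inDeg T v := inCh_card hR
  rw [tNum_eq hR, cNum_eq hR, ← h1, ← h2]
  exact mixed_num R (by rw [h1, h2]; exact hs) (by rw [h1]; exact hΔ) (by rw [h2]; exact hδ)

end Pool.Agent.Work.MP_fcea8e_co.Dom
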